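import Pool.Agent.H76.GU.Targets

/-!
Row MX2 of the board gu: two monotone sequences.
-/

namespace Pool.Agent.H60.GU

open MeasureTheory Pool.Agent.H34.GM Pool.Agent.H34.GZ Pool.Agent.H34.GU Pool.Agent.H76.GU

/-- the monotone envelope -/
lemma mx2_env {m : ℕ} (a : Fin m → ℝ) (ha : ∀ i j, i ≤ j → a i ≤ 2 ^ m * a j) :
    ∃ A : Fin m → ℝ, Monotone A ∧ (∀ i, a i ≤ A i) ∧ ∀ i, A i ≤ 2 ^ m * a i := by
  classical
  have hne : ∀ i : Fin m, (Finset.Iic i).Nonempty := fun i => ⟨i, Finset.mem_Iic.2 le_rfl⟩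
  refine ⟨fun i => (Finset.Iic i).sup' (hne i) a, ?_, ?_, ?_⟩
  · intro i j hij
    exact Finset.sup'_mono a (Finset.Iic_subset_Iic.2 hij) (hne i)
  · intro i
    exact Finset.le_sup' a (Finset.mem_Iic.2 le_rfl)
  · intro i
    refine Finset.sup'_le (hne i) a fun k hk => ?_
    exact ha k i (Finset.mem_Iic.1 hk)

lemma mx2_skw {m : ℕ} (a A : Fin m → ℝ) (hp : ∀ i, 0 < a i) (h1 : ∀ i, a i ≤ A i)
    (h2 : ∀ i, A i ≤ 2 ^ m * a i) :
    Real.exp (∑ i, ∑ j, if i < j then (Real.log (A j) - Real.log (A i)) else 0) ≤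
      ((2 : ℝ) ^ m) ^ (m * m) * skw a := by
  have hA : ∀ i, 0 < A i := fun i => (hp i).trans_le (h1 i)
  have e1 : Real.exp (∑ i, ∑ j, if i < j then (Real.log (A j) - Real.log (A i)) else 0) =
      ∏ i, ∏ j, (if i < j then A j / A i else 1) := by
    rw [Real.exp_sum]
    refine Finset.prod_congr rfl fun i _ => ?_
    rw [Real.exp_sum]
    refine Finset.prod_congr rfl fun j _ => ?_
    split_ifs
    · rw [Real.exp_sub, Real.exp_log (hA j), Real.exp_log (hA i)]
    · exact Real.exp_zero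
  rw [e1]
  have e2 : ((2 : ℝ) ^ m) ^ (m * m) * skw a =
      ∏ i : Fin m, ∏ j : Fin m, ((2 : ℝ) ^ m * (if i < j then a j / a i else 1)) := by
    unfold skw
    simp only [Finset.prod_mul_distrib, Finset.prod_const, Finset.card_univ, Fintype.card_fin]
    rw [← pow_mul ((2 : ℝ) ^ m) m m]
  rw [e2]
  have h2m : (1 : ℝ) ≤ 2 ^ m := one_le_pow₀ (by norm_num)
  refine Finset.prod_le_prod (fun i _ => Finset.prod_nonneg fun j _ => ?_)
    (fun i _ => Finset.prod_le_prod (fun j _ => ?_) fun j _ => ?_)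
  · split_ifs
    · exact (div_pos (hA j) (hA i)).le
    · exact zero_le_one
  · split_ifs
    · exact (div_pos (hA j) (hA i)).le
    · exact zero_le_one
  · split_ifs
    · rw [← mul_div_assoc]
      exact div_le_div₀ (by have := hp j; positivity) (h2 j) (hp i) (h1 i)
    · rw [mul_one]
      exact h2m

theorem pf_MX2 (hIN3 : T_IN3) : T_MX2 := by
  intro m hm1
  set K : ℝ := m * (m * (m * Real.log 2) + m) with hK
  refine ⟨((1 : ℝ) + 2 ^ m) ^ (m * m) * Real.exp K * (((2 : ℝ) ^ m) ^ (m * m)) *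
    (((2 : ℝ) ^ m) ^ (m * m)), by positivity, ?_⟩
  intro a a' ha ha' ho ho' p1 p2 p3 p4
  obtain ⟨A, hAm, hA1, hA2⟩ := mx2_env a ho
  obtain ⟨A', hAm', hA1', hA2'⟩ := mx2_env a' ho'
  have hA : ∀ i, 0 < A i := fun i => (ha i).trans_le (hA1 i)
  have hA' : ∀ i, 0 < A' i := fun i => (ha' i).trans_le (hA1' i)
  set x : Fin m → ℝ := fun i => Real.log (A i) with hx
  set z : Fin m → ℝ := fun i => Real.log (A' i) with hz
  have hxm : Monotone x := fun i j hij => Real.log_le_log (hA i) (hAm hij)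
  have hzm : Monotone z := fun i j hij => Real.log_le_log (hA' i) (hAm' hij)
  -- a very negative constant
  obtain ⟨M, hM⟩ : ∃ M : ℝ, ∀ i, M ≤ x i ∧ M ≤ z i := by
    refine ⟨-(∑ i, (|x i| + |z i|)), fun i => ?_⟩
    have h1 : |x i| + |z i| ≤ ∑ i, (|x i| + |z i|) :=
      Finset.single_le_sum (f := fun i => |x i| + |z i|) (fun j _ => by positivity)
        (Finset.mem_univ i)
    have h2 := neg_abs_le (x i)
    have h3 := neg_abs_le (z i)
    have h4 := abs_nonneg (x i)
    have h5 := abs_nonneg (z i)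
    constructor <;> linarith
  have h3 := hIN3 m x (fun _ => M) z hxm (fun _ _ _ => le_rfl) hzm (fun i => (hM i).1)
    (fun i => (hM i).2)
  have h4 : ∑ i, ∑ j, max (x i - z j) 0 ≤ m * max (∑ i, x i - ∑ i, z i) 0 +
      ((∑ i, ∑ j, if i < j then (x j - x i) else 0) +
        ∑ i, ∑ j, if i < j then (z j - z i) else 0) := by
    have e1 : ∑ i, ∑ j, max (x i - z j) 0 ≤
        ∑ i : Fin m, ∑ j : Fin m, (max (M - x i) 0 + max (M - z i) 0 + max (x i - z j) 0) := by
      refine Finset.sum_le_sum fun i _ => Finset.sum_le_sum fun j _ => ?_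
      have g1 := le_max_right (M - x i) 0
      have g2 := le_max_right (M - z i) 0
      linarith
    have e2 : ∑ i : Fin m, ∑ j : Fin m,
        (if i < j then (x j - x i) + (M - M) + (z j - z i) else 0) =
        (∑ i, ∑ j, if i < j then (x j - x i) else 0) +
        ∑ i, ∑ j, if i < j then (z j - z i) else 0 := by
      rw [← Finset.sum_add_distrib]
      refine Finset.sum_congr rfl fun i _ => ?_
      rw [← Finset.sum_add_distrib]
      refine Finset.sum_congr rfl fun j _ => ?_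
      split_ifs <;> ring
    rw [← e2]
    exact e1.trans h3
  have hlog2 : 0 ≤ Real.log 2 := Real.log_nonneg (by norm_num)
  -- the sums of logarithms
  have h5 : ∑ i, x i ≤ m * (m * Real.log 2) + m := by
    have e1 : ∀ i, x i ≤ m * Real.log 2 + Real.log (a i) := by
      intro i
      have g1 : x i ≤ Real.log (2 ^ m * a i) := Real.log_le_log (hA i) (hA2 i)
      rwa [Real.log_mul (by positivity) (ha i).ne', Real.log_pow] at g1
    have e2 : ∑ i, x i ≤ ∑ i : Fin m, ((m : ℝ) * Real.log 2 + Real.log (a i)) :=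
      Finset.sum_le_sum fun i _ => e1 i
    rw [Finset.sum_add_distrib, Finset.sum_const, Finset.card_univ, Fintype.card_fin,
      nsmul_eq_mul, ← Real.log_prod (fun i _ => (ha i).ne')] at e2
    have e3 : Real.log (∏ i, a i) ≤ m := by
      have g2 := Real.log_le_log (lt_of_lt_of_le one_pos p1) p2
      rwa [Real.log_exp] at g2
    linarith
  have h6 : 0 ≤ ∑ i, z i := by
    have e1 : ∑ i, Real.log (a' i) ≤ ∑ i, z i :=
      Finset.sum_le_sum fun i _ => Real.log_le_log (ha' i) (hA1' i)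
    rw [← Real.log_prod (fun i _ => (ha' i).ne')] at e1
    exact (Real.log_nonneg p3).trans e1
  have h7 : (m : ℝ) * max (∑ i, x i - ∑ i, z i) 0 ≤ K := by
    rw [hK]
    refine mul_le_mul_of_nonneg_left (max_le (by linarith) (by positivity)) (by positivity)
  -- the termwise bound
  have h8 : ∏ i, ∏ j, (1 + a i / a' j) ≤
      ∏ i : Fin m, ∏ j : Fin m, ((1 + 2 ^ m) * Real.exp (max (x i - z j) 0)) := by
    refine Finset.prod_le_prod (fun i _ => Finset.prod_nonneg fun j _ => ?_)
      (fun i _ => Finset.prod_le_prod (fun j _ => ?_) fun j _ => ?_)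
    · have := ha i
      have := ha' j
      positivity
    · have := ha i
      have := ha' j
      positivity
    · have g1 : a i / a' j ≤ 2 ^ m * Real.exp (x i - z j) := by
        rw [hx, hz, Real.exp_sub, Real.exp_log (hA i), Real.exp_log (hA' j), ← mul_div_assoc,
          div_le_div_iff₀ (ha' j) (hA' j)]
        calc a i * A' j ≤ A i * (2 ^ m * a' j) :=
              mul_le_mul (hA1 i) (hA2' j) (hA' j).le (hA i).le
          _ = 2 ^ m * A i * a' j := by ring
      have g2 : Real.exp (x i - z j) ≤ Real.exp (max (x i - z j) 0) :=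
        Real.exp_le_exp.2 (le_max_left _ _)
      have g3 : 1 ≤ Real.exp (max (x i - z j) 0) := Real.one_le_exp (le_max_right _ _)
      have g4 : (0 : ℝ) < 2 ^ m := by positivity
      nlinarith [mul_le_mul_of_nonneg_left g2 g4.le]
  have h9 : ∏ i : Fin m, ∏ j : Fin m, (((1 : ℝ) + 2 ^ m) * Real.exp (max (x i - z j) 0)) =
      ((1 : ℝ) + 2 ^ m) ^ (m * m) * Real.exp (∑ i, ∑ j, max (x i - z j) 0) := by
    simp only [Finset.prod_mul_distrib, Finset.prod_const, Finset.card_univ, Fintype.card_fin,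
      Real.exp_sum]
    rw [← pow_mul ((1 : ℝ) + 2 ^ m) m m]
  have h10 := mx2_skw a A ha hA1 hA2
  have h11 := mx2_skw a' A' ha' hA1' hA2'
  have h12 : Real.exp (∑ i, ∑ j, max (x i - z j) 0) ≤
      Real.exp K * ((((2 : ℝ) ^ m) ^ (m * m) * skw a) * (((2 : ℝ) ^ m) ^ (m * m) * skw a')) := by
    calc Real.exp (∑ i, ∑ j, max (x i - z j) 0)
        ≤ Real.exp (K + ((∑ i, ∑ j, if i < j then (x j - x i) else 0) +
          ∑ i, ∑ j, if i < j then (z j - z i) else 0)) := by
          refine Real.exp_le_exp.2 ?_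
          linarith
      _ = Real.exp K * (Real.exp (∑ i, ∑ j, if i < j then (x j - x i) else 0) *
          Real.exp (∑ i, ∑ j, if i < j then (z j - z i) else 0)) := by
          rw [Real.exp_add, Real.exp_add]
      _ ≤ _ := by
          refine mul_le_mul_of_nonneg_left ?_ (Real.exp_pos _).le
          exact mul_le_mul h10 h11 (Real.exp_pos _).le ((Real.exp_pos _).le.trans h10)
  calc ∏ i, ∏ j, (1 + a i / a' j)
      ≤ ((1 : ℝ) + 2 ^ m) ^ (m * m) * Real.exp (∑ i, ∑ j, max (x i - z j) 0) := h8.trans h9.le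
    _ ≤ ((1 : ℝ) + 2 ^ m) ^ (m * m) * (Real.exp K *
        ((((2 : ℝ) ^ m) ^ (m * m) * skw a) * (((2 : ℝ) ^ m) ^ (m * m) * skw a'))) :=
        mul_le_mul_of_nonneg_left h12 (by positivity)
    _ = _ := by ring

end Pool.Agent.H60.GU
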