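import Pool.Agent.H28.GU.TargetsC
import Mathlib.Combinatorics.Additive.PluenneckeRuzsa

/-! Row FV of the board guc_modules: the fibre over `0` of the sixfold sums. -/

set_option autoImplicit false

open Finset Filter Topology
open scoped Pointwise

namespace Pool.Agent.H60.GU

open Pool.Agent.H28.GU

/-- a sum of elements of a set is in the multiple of the set -/
lemma fv_sum_mem {G : Type} [AddCommGroup G] [DecidableEq G] (A : Finset G) (n : ℕ)
    (x : Fin n → G) (hx : ∀ j, x j ∈ A) : ∑ j, x j ∈ n • A := by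
  induction n with
  | zero =>
    rw [Fin.sum_univ_zero, zero_smul]
    exact Finset.mem_zero.2 rfl
  | succ n ih =>
    rw [Fin.sum_univ_castSucc, succ_nsmul]
    exact Finset.add_mem_add (ih _ fun j => hx _) (hx _)

theorem pf_FV : T_FV := by
  intro C hC
  refine ⟨⌈C ^ 13⌉₊, ?_⟩
  intro q _ Γ hΓ hinj hcard
  obtain ⟨D, hD⟩ : ∃ D : Finset (ZMod q × ZMod q), D = 6 • Γ - 6 • Γ := ⟨_, rfl⟩
  obtain ⟨V, hV⟩ : ∃ V : Finset (ZMod q), V = (D.filter fun g => g.1 = 0).image Prod.snd :=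
    ⟨_, rfl⟩
  have hVD : ∀ v ∈ V, ((0 : ZMod q), v) ∈ D := by
    intro v hv
    rw [hV, Finset.mem_image] at hv
    obtain ⟨g, hg, rfl⟩ := hv
    obtain ⟨h1, h2⟩ := Finset.mem_filter.1 hg
    have : g = ((0 : ZMod q), g.2) := Prod.ext h2 rfl
    rw [← this]
    exact h1
  have hcardV : (V ×ˢ Γ).card ≤ (7 • Γ - 6 • Γ).card := by
    refine Finset.card_le_card_of_injOn (fun p => ((0 : ZMod q), p.1) + p.2) ?_ ?_
    · rintro ⟨v, g⟩ hp
      obtain ⟨hv, hg⟩ := Finset.mem_product.1 (Finset.mem_coe.1 hp)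
      have h1 := hVD v hv
      rw [hD, Finset.mem_sub] at h1
      obtain ⟨a, ha, b, hb, hab⟩ := h1
      rw [Finset.mem_coe, Finset.mem_sub]
      refine ⟨a + g, ?_, b, hb, ?_⟩
      · rw [succ_nsmul Γ 6]
        exact Finset.add_mem_add ha hg
      · show a + g - b = ((0 : ZMod q), v) + g
        rw [← hab]
        abel
    · rintro ⟨v, g⟩ hp ⟨v', g'⟩ hp' he
      obtain ⟨hv, hg⟩ := Finset.mem_product.1 (Finset.mem_coe.1 hp)
      obtain ⟨hv', hg'⟩ := Finset.mem_product.1 (Finset.mem_coe.1 hp')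
      simp only at he
      have h1 := congrArg Prod.fst he
      have h2 := congrArg Prod.snd he
      simp only [Prod.fst_add, Prod.snd_add, zero_add] at h1 h2
      have h3 : g = g' := hinj (Finset.mem_coe.2 hg) (Finset.mem_coe.2 hg') h1
      subst h3
      rw [add_right_cancel h2]
  have hΓ0 : (0 : ℝ) < Γ.card := by exact_mod_cast hΓ.card_pos
  have hpl : ((7 • Γ - 6 • Γ).card : ℝ) ≤
      (((Γ - Γ).card : ℝ) / (Γ.card : ℝ)) ^ 13 * (Γ.card : ℝ) := by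
    have h1 := Finset.pluennecke_ruzsa_inequality_nsmul_sub_nsmul_sub hΓ Γ 7 6
    have h2 : (((7 • Γ - 6 • Γ).card : ℚ≥0) : ℝ) ≤
        ((((Γ - Γ).card : ℚ≥0) / (Γ.card : ℚ≥0)) ^ (7 + 6) * (Γ.card : ℚ≥0) : ℚ≥0) := by
      exact_mod_cast h1
    push_cast at h2
    exact h2
  have hle : (V.card : ℝ) ≤ C ^ 13 := by
    have h1 : ((V ×ˢ Γ).card : ℝ) ≤ ((7 • Γ - 6 • Γ).card : ℝ) := by exact_mod_cast hcardV
    rw [Finset.card_product] at h1
    push_cast at h1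
    have h2 : ((Γ - Γ).card : ℝ) / (Γ.card : ℝ) ≤ C := (div_le_iff₀ hΓ0).2 hcard
    have h3 : (((Γ - Γ).card : ℝ) / (Γ.card : ℝ)) ^ 13 ≤ C ^ 13 :=
      pow_le_pow_left₀ (by positivity) h2 13
    have h4 : (V.card : ℝ) * Γ.card ≤ C ^ 13 * Γ.card :=
      h1.trans (hpl.trans (mul_le_mul_of_nonneg_right h3 hΓ0.le))
    exact le_of_mul_le_mul_right h4 hΓ0
  refine ⟨V, ?_, ?_⟩
  · have : (V.card : ℝ) ≤ ⌈C ^ 13⌉₊ := hle.trans (Nat.le_ceil _)
    exact_mod_cast this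
  · intro x y hx hy h1
    rw [hV, Finset.mem_image]
    refine ⟨∑ j, x j - ∑ j, y j, Finset.mem_filter.2 ⟨?_, ?_⟩, ?_⟩
    · rw [hD]
      exact Finset.sub_mem_sub (fv_sum_mem Γ 6 x hx) (fv_sum_mem Γ 6 y hy)
    · rw [Prod.fst_sub, Prod.fst_sum, Prod.fst_sum, h1, sub_self]
    · rw [Prod.snd_sub, Prod.snd_sum, Prod.snd_sum]

end Pool.Agent.H60.GU
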