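import Pool.Agent.H76.GU.Targets

/-!
Row THT of the board gu: the theta series is bounded by the skewness.
-/

namespace Pool.Agent.H60.GU

open MeasureTheory Pool.Agent.H34.GM Pool.Agent.H34.GZ Pool.Agent.H34.GU Pool.Agent.H76.GU

lemma tht_crdet {m : ℕ} (α : ZM m) : (cR α).det = (α.det : ℝ) := by
  have h : cR α = (Int.castRingHom ℝ).mapMatrix α := rfl
  rw [h, ← RingHom.map_det]
  rfl

lemma tht_crmul {m : ℕ} (α β : ZM m) : cR (α * β) = cR α * cR β := by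
  have h : ∀ x : ZM m, cR x = (Int.castRingHom ℝ).mapMatrix x := fun x => rfl
  rw [h, h, h, map_mul]

lemma tht_crone {m : ℕ} : cR (1 : ZM m) = 1 := by
  have h : ∀ x : ZM m, cR x = (Int.castRingHom ℝ).mapMatrix x := fun x => rfl
  rw [h, map_one]

lemma tht_unit {m : ℕ} (γ : ZM m) (h : IsUnit γ) : |(cR γ).det| = 1 := by
  rw [tht_crdet]
  have h1 : IsUnit γ.det := (Matrix.isUnit_iff_isUnit_det γ).1 h
  rcases Int.isUnit_iff.1 h1 with h2 | h2 <;> rw [h2] <;> norm_num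

lemma tht_aN {m : ℕ} (γ : ZM m) (h : IsUnit γ) (g : Mat m) : aN (cR γ * g) = aN g := by
  unfold aN
  rw [Matrix.det_mul, abs_mul, tht_unit γ h, one_mul]

lemma tht_sgl {m : ℕ} {z n : Mat m} {a : Fin m → ℝ} {k : Mat m} (h : Sgl z n a k) :
    |z.det| = ∏ i, a i := by
  have hn : n.det = 1 := by
    rw [Matrix.det_of_lowerTriangular n (fun i j hij => h.up i j hij)]
    exact Finset.prod_eq_one fun i _ => h.one i
  have hk : |k.det| = 1 := by
    have h1 : k.det * k.det = 1 := by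
      have h2 := congrArg Matrix.det h.orth
      rwa [Matrix.det_mul, Matrix.det_transpose, Matrix.det_one] at h2
    have h3 : |k.det| * |k.det| = 1 := by rw [← abs_mul, h1, abs_one]
    nlinarith [abs_nonneg k.det]
  rw [h.eq, Matrix.det_mul, Matrix.det_mul, hn, Matrix.det_diagonal, one_mul, abs_mul, hk, mul_one,
    abs_of_pos (Finset.prod_pos fun i _ => h.pos i)]

lemma tht_prod {m : ℕ} (hm1 : 1 ≤ m) {z n : Mat m} {a : Fin m → ℝ} {k : Mat m} (h : Sgl z n a k)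
    (h1 : 1 ≤ aN z) (h2 : aN z < Real.exp 1) : 1 ≤ ∏ i, a i ∧ ∏ i, a i ≤ Real.exp m := by
  have hp : 0 < ∏ i, a i := Finset.prod_pos fun i _ => h.pos i
  have h3 : aN z ^ m = ∏ i, a i := by
    unfold aN
    rw [tht_sgl h, ← Real.rpow_natCast, ← Real.rpow_mul hp.le]
    have hm0 : (m : ℝ) ≠ 0 := by
      have : (0 : ℝ) < m := by exact_mod_cast hm1
      exact this.ne'
    rw [one_div, inv_mul_cancel₀ hm0, Real.rpow_one]
  rw [← h3]
  refine ⟨one_le_pow₀ h1, ?_⟩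
  have h4 : Real.exp (m : ℝ) = Real.exp 1 ^ m := by
    rw [← Real.exp_nat_mul, mul_one]
  rw [h4]
  exact pow_le_pow_left₀ (by linarith) h2.le m

lemma tht_inv {m : ℕ} (γ δ : (ZM m)ˣ) (g h : Mat m) (hg : g.det ≠ 0)
    (ρ : ℝ) (β : ZM m) :
    kk ρ (cR (γ : ZM m) * g) (cR ((γ : ZM m) * β * ((δ⁻¹ : (ZM m)ˣ) : ZM m)))
      (cR (δ : ZM m) * h) = kk ρ g (cR β) h := by
  unfold kk
  rw [tht_aN _ γ.isUnit, tht_aN _ δ.isUnit]
  congr 1
  have h1 : IsUnit (cR (γ : ZM m)).det := by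
    have h2 := tht_unit (γ : ZM m) γ.isUnit
    rw [isUnit_iff_ne_zero]
    intro h0
    rw [h0, abs_zero] at h2
    exact zero_ne_one h2
  have h3 : cR ((δ⁻¹ : (ZM m)ˣ) : ZM m) * cR (δ : ZM m) = 1 := by
    rw [← tht_crmul, Units.inv_mul, tht_crone]
  rw [Matrix.mul_inv_rev, tht_crmul, tht_crmul]
  calc g⁻¹ * (cR (γ : ZM m))⁻¹ * (cR (γ : ZM m) * cR β * cR ((δ⁻¹ : (ZM m)ˣ) : ZM m)) *
        (cR (δ : ZM m) * h)
      = g⁻¹ * ((cR (γ : ZM m))⁻¹ * cR (γ : ZM m)) * cR β *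
        (cR ((δ⁻¹ : (ZM m)ˣ) : ZM m) * cR (δ : ZM m)) * h := by
        simp only [Matrix.mul_assoc]
    _ = g⁻¹ * cR β * h := by
        rw [Matrix.nonsing_inv_mul _ h1, h3, Matrix.mul_one, Matrix.mul_one]

lemma tht_skw {m : ℕ} (a : Fin m → ℝ) (h : ∀ i, 0 < a i) : 0 < skw a := by
  unfold skw
  refine Finset.prod_pos fun i _ => Finset.prod_pos fun j _ => ?_
  split_ifs
  · exact div_pos (h j) (h i)
  · exact one_pos

theorem pf_THT (hTHS : T_THS) (hMX2 : T_MX2) (hRED : T_RED) : T_THT := by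
  intro m hm1 Ψ hΨ ρ hρ
  obtain ⟨C1, hC1, H1⟩ := hTHS m hm1 Ψ hΨ ρ hρ
  obtain ⟨C2, hC2, H2⟩ := hMX2 m hm1
  refine ⟨C1 * C2, by positivity, ?_⟩
  intro g h hg1 hg2 hh1 hh2
  have hdet : ∀ z : Mat m, 1 ≤ aN z → z.det ≠ 0 := by
    intro z hz h0
    unfold aN at hz
    rw [h0, abs_zero, Real.zero_rpow] at hz
    · linarith
    · have : (0 : ℝ) < m := by exact_mod_cast hm1
      positivity
  have hgd := hdet g hg1
  have hhd := hdet h hh1
  set S : ENNReal := ∑' β : ZM m, ENNReal.ofReal ‖Ψ (kk ρ g (cR β) h)‖ with hS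
  have key : ∀ γ : ZM m, IsUnit γ → ∀ (n : Mat m) (a : Fin m → ℝ) (k : Mat m),
      Sgl (cR γ * g) n a k → ∀ δ : ZM m, IsUnit δ → ∀ (n' : Mat m) (a' : Fin m → ℝ) (k' : Mat m),
      Sgl (cR δ * h) n' a' k' →
      S ≤ ENNReal.ofReal (C1 * C2) * ENNReal.ofReal (skw a) * ENNReal.ofReal (skw a') := by
    intro γ hγ n a k hs δ hδ n' a' k' hs'
    obtain ⟨u, rfl⟩ := hγ
    obtain ⟨w, rfl⟩ := hδ
    have e1 : S = ∑' β : ZM m, ENNReal.ofReal
        ‖Ψ (kk ρ (cR (u : ZM m) * g) (cR β) (cR (w : ZM m) * h))‖ := by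
      rw [hS]
      rw [← ((Units.mulLeft u).trans (Units.mulRight w⁻¹)).tsum_eq (fun β : ZM m =>
        ENNReal.ofReal ‖Ψ (kk ρ (cR (u : ZM m) * g) (cR β) (cR (w : ZM m) * h))‖)]
      refine tsum_congr fun β => ?_
      have h5 := tht_inv u w g h hgd ρ β
      simp only [Equiv.trans_apply, Units.mulLeft_apply, Units.mulRight_apply]
      rw [h5]
    rw [e1]
    have g1 : 1 ≤ aN (cR (u : ZM m) * g) := by rw [tht_aN _ u.isUnit]; exact hg1
    have g2 : aN (cR (u : ZM m) * g) < Real.exp 1 := by rw [tht_aN _ u.isUnit]; exact hg2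
    have g3 : 1 ≤ aN (cR (w : ZM m) * h) := by rw [tht_aN _ w.isUnit]; exact hh1
    have g4 : aN (cR (w : ZM m) * h) < Real.exp 1 := by rw [tht_aN _ w.isUnit]; exact hh2
    obtain ⟨p1, p2⟩ := tht_prod hm1 hs g1 g2
    obtain ⟨p3, p4⟩ := tht_prod hm1 hs' g3 g4
    refine (H1 _ n a k _ n' a' k' hs hs' g1 g2 g3 g4).trans ?_
    have q1 := H2 a a' hs.pos hs'.pos hs.ord hs'.ord p1 p2 p3 p4
    have s1 := tht_skw a hs.pos
    have s2 := tht_skw a' hs'.pos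
    rw [← ENNReal.ofReal_mul (by positivity), ← ENNReal.ofReal_mul (by positivity)]
    refine ENNReal.ofReal_le_ofReal ?_
    calc C1 * ∏ i, ∏ j, (1 + a i / a' j) ≤ C1 * (C2 * skw a * skw a') :=
          mul_le_mul_of_nonneg_left q1 hC1.le
      _ = C1 * C2 * skw a * skw a' := by ring
  have hK0 : ENNReal.ofReal (C1 * C2) ≠ 0 := by
    have : 0 < C1 * C2 := by positivity
    rw [Ne, ENNReal.ofReal_eq_zero, not_le]
    exact this
  have hKt : ENNReal.ofReal (C1 * C2) ≠ ⊤ := ENNReal.ofReal_ne_top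
  -- first the infimum over the data of h
  have step1 : ∀ γ : ZM m, IsUnit γ → ∀ (n : Mat m) (a : Fin m → ℝ) (k : Mat m),
      Sgl (cR γ * g) n a k →
      S ≤ ENNReal.ofReal (C1 * C2) * ENNReal.ofReal (skw a) * Tht h := by
    intro γ hγ n a k hs
    have s1 := tht_skw a hs.pos
    have c0 : ENNReal.ofReal (C1 * C2) * ENNReal.ofReal (skw a) ≠ 0 := by
      refine mul_ne_zero hK0 ?_
      rw [Ne, ENNReal.ofReal_eq_zero, not_le]
      exact s1
    have ct : ENNReal.ofReal (C1 * C2) * ENNReal.ofReal (skw a) ≠ ⊤ :=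
      ENNReal.mul_ne_top hKt ENNReal.ofReal_ne_top
    rw [← ENNReal.div_le_iff' c0 ct]
    refine le_iInf fun δ => le_iInf fun hδ => le_iInf fun n' => le_iInf fun a' => le_iInf fun k' =>
      le_iInf fun hs' => ?_
    rw [ENNReal.div_le_iff' c0 ct]
    exact key γ hγ n a k hs δ hδ n' a' k' hs'
  obtain ⟨γ0, hγ0, n0, a0, k0, hs0⟩ := hRED m g hgd
  obtain ⟨δ0, hδ0, n1, a1, k1, hs1⟩ := hRED m h hhd
  have hTt : Tht h ≠ ⊤ := by
    have hle : Tht h ≤ ENNReal.ofReal (skw a1) :=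
      iInf_le_of_le δ0 <| iInf_le_of_le hδ0 <| iInf_le_of_le n1 <| iInf_le_of_le a1 <|
        iInf_le_of_le k1 <| iInf_le_of_le hs1 le_rfl
    exact (hle.trans_lt ENNReal.ofReal_lt_top).ne
  by_cases hT0 : Tht h = 0
  · have h6 := step1 γ0 hγ0 n0 a0 k0 hs0
    rw [hT0, mul_zero] at h6 ⊢
    exact h6
  · have c0 : ENNReal.ofReal (C1 * C2) * Tht h ≠ 0 := mul_ne_zero hK0 hT0
    have ct : ENNReal.ofReal (C1 * C2) * Tht h ≠ ⊤ := ENNReal.mul_ne_top hKt hTt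
    have h7 : S ≤ ENNReal.ofReal (C1 * C2) * Tht h * Tht g := by
      rw [← ENNReal.div_le_iff' c0 ct]
      refine le_iInf fun γ => le_iInf fun hγ => le_iInf fun n => le_iInf fun a => le_iInf fun k =>
        le_iInf fun hs => ?_
      rw [ENNReal.div_le_iff' c0 ct]
      have h8 := step1 γ hγ n a k hs
      calc S ≤ ENNReal.ofReal (C1 * C2) * ENNReal.ofReal (skw a) * Tht h := h8
        _ = ENNReal.ofReal (C1 * C2) * Tht h * ENNReal.ofReal (skw a) := by ring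
    calc S ≤ ENNReal.ofReal (C1 * C2) * Tht h * Tht g := h7
      _ = ENNReal.ofReal (C1 * C2) * Tht g * Tht h := by ring

end Pool.Agent.H60.GU
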